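import Pool.Agent.Helper40.AC.Stmts

/-!
# Project AC, packet P34: the compact nonsingular real algebraic variety `W`
-/

open scoped Matrix Topology
open MvPolynomial Pool.Agent.Helper40.AC

namespace Pool.Agent.Helper46.AC

/-! ### Polynomial functions -/

/-- polynomial functions -/
def PF {ι : Type} (f : (ι → ℝ) → ℝ) : Prop := ∃ P : MvPolynomial ι ℝ, ∀ w, eval w P = f w

section PF
variable {ι : Type} {f g : (ι → ℝ) → ℝ}

theorem PF.add (hf : PF f) (hg : PF g) : PF (fun w => f w + g w) := by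
  obtain ⟨P, hP⟩ := hf
  obtain ⟨Q, hQ⟩ := hg
  exact ⟨P + Q, fun w => by simp [hP, hQ]⟩

theorem PF.sub (hf : PF f) (hg : PF g) : PF (fun w => f w - g w) := by
  obtain ⟨P, hP⟩ := hf
  obtain ⟨Q, hQ⟩ := hg
  exact ⟨P - Q, fun w => by simp [hP, hQ]⟩

theorem PF.mul (hf : PF f) (hg : PF g) : PF (fun w => f w * g w) := by
  obtain ⟨P, hP⟩ := hf
  obtain ⟨Q, hQ⟩ := hg
  exact ⟨P * Q, fun w => by simp [hP, hQ]⟩

theorem PF.neg (hf : PF f) : PF (fun w => -f w) := by
  obtain ⟨P, hP⟩ := hf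
  exact ⟨-P, fun w => by simp [hP]⟩

theorem PF.pow (hf : PF f) (n : ℕ) : PF (fun w => f w ^ n) := by
  obtain ⟨P, hP⟩ := hf
  exact ⟨P ^ n, fun w => by simp [hP]⟩

theorem PF.const (c : ℝ) : PF (fun _ : ι → ℝ => c) := ⟨C c, fun w => by simp⟩

theorem PF.coord (i : ι) : PF (fun w : ι → ℝ => w i) := ⟨X i, fun w => by simp⟩

theorem PF.div (hf : PF f) (c : ℝ) : PF (fun w => f w / c) := by
  obtain ⟨P, hP⟩ := hf
  exact ⟨P * C (1 / c), fun w => by simp [hP]; ring⟩

theorem PF.sum {κ : Type} (s : Finset κ) {h : κ → (ι → ℝ) → ℝ} (hh : ∀ k, PF (h k)) :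
    PF (fun w => ∑ k ∈ s, h k w) := by
  choose P hP using hh
  exact ⟨∑ k ∈ s, P k, fun w => by simp [hP]⟩

end PF

/-! ### The gradient -/

theorem grad_dot {ι : Type} [Fintype ι] (P : MvPolynomial ι ℝ) (x v : ι → ℝ) :
    HasDerivAt (fun s : ℝ => eval (x + s • v) P) (grad P x ⬝ᵥ v) 0 := by
  classical
  induction P using MvPolynomial.induction_on with
  | C a =>
    have : grad (C a : MvPolynomial ι ℝ) x = 0 := by
      funext i; simp [grad]
    rw [this, zero_dotProduct]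
    simpa using hasDerivAt_const (0 : ℝ) a
  | add p q hp hq =>
    have : grad (p + q) x = grad p x + grad q x := by
      funext i; simp [grad]
    rw [this, add_dotProduct]
    refine (hp.add hq).congr_of_eventuallyEq (Filter.Eventually.of_forall fun s => ?_)
    simp
  | mul_X p i hp =>
    have : grad (p * X i) x = x i • grad p x + eval x p • (Pi.single i 1) := by
      funext j
      simp only [grad, pderiv_mul, pderiv_X, map_add, map_mul, eval_X, Pi.add_apply,
        Pi.smul_apply, smul_eq_mul]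
      by_cases h : i = j
      · subst h; simp; ring
      · have h' : j ≠ i := fun e => h e.symm
        simp [h, h', mul_comm]
    rw [this, add_dotProduct, smul_dotProduct, smul_dotProduct, single_dotProduct]
    have h1 : HasDerivAt (fun s : ℝ => (x + s • v) i) (v i) 0 := by
      have : HasDerivAt (fun s : ℝ => x i + s * v i) (1 * v i) 0 :=
        ((hasDerivAt_id (0 : ℝ)).mul_const (v i)).const_add (x i)
      simpa using this
    have h2 := hp.mul h1
    simp only [zero_smul, add_zero] at h2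
    refine (h2.congr_deriv ?_).congr_of_eventuallyEq ?_
    · simp only [smul_eq_mul, one_mul]; ring
    · refine Filter.Eventually.of_forall fun s => ?_
      simp

theorem grad_dot_eq {ι : Type} [Fintype ι] {P : MvPolynomial ι ℝ} {f : (ι → ℝ) → ℝ}
    (hP : ∀ w, eval w P = f w) (x v : ι → ℝ) {c : ℝ}
    (h : HasDerivAt (fun s : ℝ => f (x + s • v)) c 0) : grad P x ⬝ᵥ v = c := by
  have h1 := grad_dot P x v
  simp only [hP] at h1
  exact h1.unique h

theorem grad_dot_zero {ι : Type} [Fintype ι] {P : MvPolynomial ι ℝ} {f : (ι → ℝ) → ℝ}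
    (hP : ∀ w, eval w P = f w) (x v : ι → ℝ)
    (h : ∀ s : ℝ, f (x + s • v) = f x) : grad P x ⬝ᵥ v = 0 := by
  refine grad_dot_eq hP x v ?_
  simp only [h]
  exact hasDerivAt_const _ _

/-- Nonsingularity from a family of polynomials over any finite type. -/
theorem nonsingAt_of {ι : Type} [Fintype ι] (X : Set (ι → ℝ)) (d : ℕ) (x : ι → ℝ) (J : Type)
    [Fintype J] (Q : J → MvPolynomial ι ℝ) (hc : Fintype.card J + d = Fintype.card ι)
    (h0 : ∀ j, ∀ y ∈ X, eval y (Q j) = 0) (hl : LinearIndependent ℝ (fun j => grad (Q j) x))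
    (hU : ∃ U ∈ 𝓝 x, ∀ y ∈ U, (∀ j, eval y (Q j) = 0) → y ∈ X) : NonsingAt X d x := by
  classical
  let e := (Fintype.equivFin J).symm
  refine ⟨Fintype.card J, fun i => Q (e i), hc, fun i y hy => h0 _ y hy,
    hl.comp e e.injective, ?_⟩
  obtain ⟨U, hU, h⟩ := hU
  refine ⟨U, hU, fun y hy hy' => h y hy fun j => ?_⟩
  have := hy' (e.symm j)
  simpa using this

/-! ### The equations of `W` -/

/-- first index -/
def o1 (i : Fin 2) : Fin 4 := ![0, 2] i
/-- second index -/
def o2 (i : Fin 2) : Fin 4 := ![1, 3] i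

/-- circle equations -/
def eC (w : WIdx → ℝ) (j : Fin 4) : ℝ := cc (gW w) j ^ 2 + ss (gW w) j ^ 2 - 1
/-- sphere equation -/
def eS (w : WIdx → ℝ) : ℝ := ∑ k, ww (gW w) k ^ 2 - 1
/-- right hand side of the cubic -/
noncomputable def G (w : WIdx → ℝ) (i : Fin 2) : ℝ :=
  gg (cc (gW w) (o1 i)) (ss (gW w) (o1 i)) (cc (gW w) (o2 i)) (ss (gW w) (o2 i))
/-- cubic equations -/
noncomputable def eT (w : WIdx → ℝ) (i : Fin 2) : ℝ := tW w i ^ 3 + 4 * tW w i - G w i
/-- denominators -/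
noncomputable def N (w : WIdx → ℝ) (i : Fin 2) : ℝ :=
  Nn (cc (gW w) (o1 i)) (ss (gW w) (o1 i)) (cc (gW w) (o2 i)) (ss (gW w) (o2 i)) (tW w i)
/-- numerators -/
noncomputable def B (w : WIdx → ℝ) (i : Fin 2) (j : Fin 3) : ℝ :=
  bv (cc (gW w) (o1 i)) (ss (gW w) (o1 i)) (cc (gW w) (o2 i)) (ss (gW w) (o2 i)) (tW w i) j
/-- equations of the unit vectors -/
noncomputable def eA (w : WIdx → ℝ) (i : Fin 2) (j : Fin 3) : ℝ := N w i * aW w i j - B w i j
/-- the last equation -/
noncomputable def uV (w : WIdx → ℝ) : Fin 4 → ℝ := (LL (aW w 0) + RR (aW w 1)) *ᵥ vv (gW w)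

theorem mem_WW_iff (w : WIdx → ℝ) : w ∈ WW ↔
    (∀ j, eC w j = 0) ∧ eS w = 0 ∧ (∀ i, eT w i = 0) ∧ (∀ i j, eA w i j = 0) ∧ uV w = 0 := by
  simp only [WW, VV, Set.mem_ofPred_eq, eC, eS, eT, eA, uV, Fin.forall_fin_two, sub_eq_zero, G, N, B,
    o1, o2, Matrix.cons_val_zero, Matrix.cons_val_one]
  tauto

theorem pf_cc (j : Fin 4) : PF (fun w : WIdx → ℝ => cc (gW w) j) := PF.coord _
theorem pf_ss (j : Fin 4) : PF (fun w : WIdx → ℝ => ss (gW w) j) := PF.coord _
theorem pf_ww (j : Fin 5) : PF (fun w : WIdx → ℝ => ww (gW w) j) := PF.coord _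
theorem pf_vv (j : Fin 4) : PF (fun w : WIdx → ℝ => vv (gW w) j) := PF.coord _
theorem pf_tW (i : Fin 2) : PF (fun w : WIdx → ℝ => tW w i) := PF.coord _
theorem pf_aW (i : Fin 2) (j : Fin 3) : PF (fun w : WIdx → ℝ => aW w i j) := PF.coord _

theorem pf_eC (j : Fin 4) : PF (fun w => eC w j) :=
  (((pf_cc j).pow 2).add ((pf_ss j).pow 2)).sub (PF.const 1)

theorem pf_eS : PF eS :=
  (PF.sum Finset.univ (fun k => (pf_ww k).pow 2)).sub (PF.const 1)

section
variable {a b c d t : (WIdx → ℝ) → ℝ}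

theorem pf_gg (ha : PF a) (hb : PF b) (hc : PF c) (hd : PF d) :
    PF (fun w => gg (a w) (b w) (c w) (d w)) := by
  unfold gg
  repeat' first | assumption | exact PF.const _ | refine PF.neg ?_ | refine PF.div ?_ _ |
    refine PF.pow ?_ _ | refine PF.mul ?_ ?_ | refine PF.sub ?_ ?_ | refine PF.add ?_ ?_

theorem pf_Nn (ha : PF a) (hb : PF b) (hc : PF c) (hd : PF d) (ht : PF t) :
    PF (fun w => Nn (a w) (b w) (c w) (d w) (t w)) := by
  unfold Nn fR fI kR kI hR hI
  repeat' first | assumption | exact PF.const _ | refine PF.neg ?_ | refine PF.div ?_ _ |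
    refine PF.pow ?_ _ | refine PF.mul ?_ ?_ | refine PF.sub ?_ ?_ | refine PF.add ?_ ?_

theorem pf_bv (ha : PF a) (hb : PF b) (hc : PF c) (hd : PF d) (ht : PF t) (j : Fin 3) :
    PF (fun w => bv (a w) (b w) (c w) (d w) (t w) j) := by
  unfold bv fR fI kR kI hR hI
  fin_cases j <;>
  · simp only [Fin.zero_eta, Fin.mk_one, Fin.reduceFinMk, Matrix.cons_val]
    repeat' first | assumption | exact PF.const _ | refine PF.neg ?_ | refine PF.div ?_ _ |
      refine PF.pow ?_ _ | refine PF.mul ?_ ?_ | refine PF.sub ?_ ?_ | refine PF.add ?_ ?_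

end

theorem pf_eT (i : Fin 2) : PF (fun w => eT w i) :=
  (((pf_tW i).pow 3).add ((PF.const 4).mul (pf_tW i))).sub
    (pf_gg (pf_cc _) (pf_ss _) (pf_cc _) (pf_ss _))

theorem pf_eA (i : Fin 2) (j : Fin 3) : PF (fun w => eA w i j) :=
  ((pf_Nn (pf_cc _) (pf_ss _) (pf_cc _) (pf_ss _) (pf_tW _)).mul (pf_aW i j)).sub
    (pf_bv (pf_cc _) (pf_ss _) (pf_cc _) (pf_ss _) (pf_tW _) j)

theorem pf_uV (k : Fin 4) : PF (fun w => uV w k) := by
  have h : (fun w => uV w k) = fun w =>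
      ∑ l, (LL (aW w 0) k l + RR (aW w 1) k l) * vv (gW w) l := by
    funext w
    simp [uV, Matrix.mulVec, dotProduct]
  rw [h]
  refine PF.sum Finset.univ fun l => (PF.add ?_ ?_).mul (pf_vv l)
  · unfold LL
    fin_cases k <;> fin_cases l <;>
    · simp
      first | exact PF.const _ | exact pf_aW _ _ | exact (pf_aW _ _).neg
  · unfold RR
    fin_cases k <;> fin_cases l <;>
    · simp
      first | exact PF.const _ | exact pf_aW _ _ | exact (pf_aW _ _).neg

theorem isAlgSet_WW : IsAlgSet WW := by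
  refine ⟨{P | ∀ w ∈ WW, eval w P = 0}, ?_⟩
  ext x
  refine ⟨fun hx P hP => hP x hx, fun hx => ?_⟩
  have key : ∀ f : (WIdx → ℝ) → ℝ, PF f → (∀ w ∈ WW, f w = 0) → f x = 0 := by
    rintro f ⟨P, hP⟩ hf
    have := hx P (fun w hw => by rw [hP]; exact hf w hw)
    rwa [hP] at this
  rw [mem_WW_iff]
  refine ⟨fun j => key _ (pf_eC j) fun w hw => ((mem_WW_iff w).1 hw).1 j,
    key _ pf_eS fun w hw => ((mem_WW_iff w).1 hw).2.1,
    fun i => key _ (pf_eT i) fun w hw => ((mem_WW_iff w).1 hw).2.2.1 i,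
    fun i j => key _ (pf_eA i j) fun w hw => ((mem_WW_iff w).1 hw).2.2.2.1 i j,
    funext fun k => key _ (pf_uV k) fun w hw => by rw [((mem_WW_iff w).1 hw).2.2.2.2]; rfl⟩

/-! ### Unit vectors and compactness -/

theorem unit_of (h1 : S_ROOT) (w : WIdx → ℝ) (hC : ∀ j, eC w j = 0) (hT : ∀ i, eT w i = 0)
    (hA : ∀ i j, eA w i j = 0) (i : Fin 2) : ∑ j, aW w i j ^ 2 = 1 := by
  obtain ⟨-, -, hN, hb⟩ := h1
  have hNp : 0 < N w i := hN _ _ _ _ _
  have hC' : ∀ j, cc (gW w) j ^ 2 + ss (gW w) j ^ 2 = 1 := fun j => by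
    have := hC j
    unfold eC at this
    linarith
  have hB : ∑ j, B w i j ^ 2 = N w i ^ 2 := by
    refine hb _ _ _ _ _ (hC' _) (hC' _) ?_
    have := hT i
    unfold eT G at this
    linarith
  have hAB : ∀ j, B w i j = N w i * aW w i j := fun j => by
    have := hA i j
    unfold eA at this
    linarith
  simp only [hAB, mul_pow, ← Finset.mul_sum] at hB
  have hN2 : (N w i ^ 2) ≠ 0 := by positivity
  exact mul_left_cancel₀ hN2 (by rw [hB, mul_one])

theorem abs_le_one_of_sq {a b : ℝ} (h : a ^ 2 + b = 1) (hb : 0 ≤ b) : |a| ≤ 1 := by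
  rw [← sq_le_one_iff_abs_le_one]
  linarith

theorem abs_cc_le {w : WIdx → ℝ} (hC : ∀ j, eC w j = 0) (j : Fin 4) : |cc (gW w) j| ≤ 1 := by
  have := hC j
  unfold eC at this
  exact abs_le_one_of_sq (b := ss (gW w) j ^ 2) (by linarith) (sq_nonneg _)

theorem abs_ss_le {w : WIdx → ℝ} (hC : ∀ j, eC w j = 0) (j : Fin 4) : |ss (gW w) j| ≤ 1 := by
  have := hC j
  unfold eC at this
  exact abs_le_one_of_sq (b := cc (gW w) j ^ 2) (by linarith) (sq_nonneg _)

theorem abs_sum_le {n : ℕ} (f : Fin n → ℝ) (h : ∑ k, f k ^ 2 = 1) (k : Fin n) : |f k| ≤ 1 := by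
  rw [← sq_le_one_iff_abs_le_one, ← h]
  exact Finset.single_le_sum (f := fun k => f k ^ 2) (fun i _ => sq_nonneg _) (Finset.mem_univ k)

theorem abs_gg_le {c₁ s₁ c₂ s₂ : ℝ} (h2 : |s₁| ≤ 1) (h3 : |c₂| ≤ 1) (h4 : |s₂| ≤ 1) :
    |gg c₁ s₁ c₂ s₂| ≤ 4 := by
  have e : |gg c₁ s₁ c₂ s₂| = |c₂| ^ 2 * |s₂| * |3 - c₂| * |s₁| / 2 := by
    unfold gg
    rw [abs_neg, abs_div, abs_mul, abs_mul, abs_mul, abs_pow]
    norm_num
  have h5 : |3 - c₂| ≤ 4 := by
    rw [abs_le] at h3 ⊢
    constructor <;> linarith [h3.1, h3.2]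
  have p1 : |c₂| ^ 2 ≤ 1 := pow_le_one₀ (abs_nonneg _) h3
  have p2 : |c₂| ^ 2 * |s₂| ≤ 1 := mul_le_one₀ p1 (abs_nonneg _) h4
  have p3 : |c₂| ^ 2 * |s₂| * |3 - c₂| ≤ 1 * 4 :=
    mul_le_mul p2 h5 (abs_nonneg _) zero_le_one
  have p4 : |c₂| ^ 2 * |s₂| * |3 - c₂| * |s₁| ≤ (1 * 4) * 1 :=
    mul_le_mul p3 h2 (abs_nonneg _) (by norm_num)
  rw [e]
  linarith

theorem abs_root_le {t y : ℝ} (h : t ^ 3 + 4 * t = y) (hy : |y| ≤ 4) : |t| ≤ 1 := by
  have e : |t| * (t ^ 2 + 4) = |y| := by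
    rw [← h, show t ^ 3 + 4 * t = t * (t ^ 2 + 4) by ring, abs_mul,
      abs_of_pos (show (0 : ℝ) < t ^ 2 + 4 by positivity)]
  nlinarith [abs_nonneg t, sq_nonneg t, mul_nonneg (abs_nonneg t) (sq_nonneg t)]

theorem norm_le_one (h1 : S_ROOT) {w : WIdx → ℝ} (hw : w ∈ WW) : ‖w‖ ≤ 1 := by
  obtain ⟨hC, hS, hT, hA, -⟩ := (mem_WW_iff w).1 hw
  have hu := unit_of h1 w hC hT hA
  refine (pi_norm_le_iff_of_nonneg zero_le_one).2 fun i => ?_
  rw [Real.norm_eq_abs]
  rcases i with (i | i | i) | i | ⟨i, j⟩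
  · exact abs_cc_le hC i
  · exact abs_ss_le hC i
  · refine abs_sum_le (fun k => ww (gW w) k) ?_ i
    unfold eS at hS
    linarith
  · refine abs_root_le (t := tW w i) (y := G w i) ?_
      (abs_gg_le (abs_ss_le hC _) (abs_cc_le hC _) (abs_ss_le hC _))
    have := hT i
    unfold eT at this
    linarith
  · exact abs_sum_le (fun k => aW w i k) (hu i) j

theorem isClosed_of_isAlgSet {ι : Type} [Fintype ι] {X : Set (ι → ℝ)} (h : IsAlgSet X) :
    IsClosed X := by
  obtain ⟨S, rfl⟩ := h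
  have : {x : ι → ℝ | ∀ p ∈ S, eval x p = 0} = ⋂ p ∈ S, {x | eval x p = 0} := by
    ext x; simp
  rw [this]
  exact isClosed_biInter fun p _ => isClosed_eq (MvPolynomial.continuous_eval p) continuous_const

theorem isCompact_WW (h1 : S_ROOT) : IsCompact WW := by
  refine Metric.isCompact_of_isClosed_isBounded (isClosed_of_isAlgSet isAlgSet_WW) ?_
  refine (Metric.isBounded_closedBall (x := (0 : WIdx → ℝ)) (r := 1)).subset fun w hw => ?_
  rw [mem_closedBall_zero_iff]
  exact norm_le_one h1 hw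

/-! ### Linear algebra of the projector -/

section lin

variable {a b : Fin 3 → ℝ} (h2 : S_QUAT) (ha : ∑ i, a i ^ 2 = 1) (hb : ∑ i, b i ^ 2 = 1)

include h2 ha hb

theorem pR_mul_sum : pR a b * (LL a + RR b) = LL a + RR b := by
  obtain ⟨hL, hR, hc, -⟩ := h2 a b ha hb
  have e1 : LL a * RR b * LL a = -RR b := by
    rw [Matrix.mul_assoc, ← hc, ← Matrix.mul_assoc, hL]; simp
  have e2 : LL a * RR b * RR b = -LL a := by
    rw [Matrix.mul_assoc, hR]; simp
  unfold pR
  rw [Matrix.smul_mul, Matrix.sub_mul, Matrix.one_mul, Matrix.mul_add, e1, e2]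
  ext i j
  simp
  ring

theorem sum_mul_pR : (LL a + RR b) * pR a b = (2 : ℝ) • (LL a * pR a b) := by
  obtain ⟨hL, hR, hc, -⟩ := h2 a b ha hb
  have e1 : RR b * pR a b = LL a * pR a b := by
    unfold pR
    rw [Matrix.mul_smul, Matrix.mul_smul, Matrix.mul_sub, Matrix.mul_sub, ← Matrix.mul_assoc,
      ← hc, Matrix.mul_assoc, hR, ← Matrix.mul_assoc, hL]
    simp [add_comm]
  rw [Matrix.add_mul, e1, two_smul]

theorem pR_comm : pR a b * LL a = LL a * pR a b := by
  obtain ⟨hL, hR, hc, -⟩ := h2 a b ha hb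
  unfold pR
  rw [Matrix.smul_mul, Matrix.mul_smul, Matrix.sub_mul, Matrix.mul_sub, Matrix.mul_assoc, ← hc]
  simp

theorem finrank_range : Module.finrank ℝ (LinearMap.range (Matrix.toLin' (pR a b))) = 2 := by
  obtain ⟨hL, hR, hc, hLt, hRt, hi, hs, htr, -⟩ := h2 a b ha hb
  have hid : IsIdempotentElem (Matrix.toLin' (pR a b)) := by
    unfold IsIdempotentElem
    rw [Module.End.mul_eq_comp, ← Matrix.toLin'_mul, hi]
  have hp := LinearMap.IsIdempotentElem.isProj_range _ hid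
  have ht := hp.trace
  rw [Matrix.trace_toLin'_eq, htr] at ht
  exact_mod_cast ht.symm

theorem exists_xi : ∃ ξ : Fin 2 → (Fin 4 → ℝ), LinearIndependent ℝ ξ ∧
    (∀ k, pR a b *ᵥ ξ k = ξ k) ∧ ∀ u, (∀ k, ξ k ⬝ᵥ u = 0) → pR a b *ᵥ u = 0 := by
  have hfr := finrank_range h2 ha hb
  obtain ⟨hL, hR, hc, hLt, hRt, hi, hs, htr, -⟩ := h2 a b ha hb
  let bs := Module.finBasisOfFinrankEq ℝ (LinearMap.range (Matrix.toLin' (pR a b))) hfr
  refine ⟨fun k => (bs k : Fin 4 → ℝ), ?_, ?_, ?_⟩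
  · exact bs.linearIndependent.map' (Submodule.subtype _) (Submodule.ker_subtype _)
  · intro k
    obtain ⟨z, hz⟩ := (bs k).2
    rw [Matrix.toLin'_apply] at hz
    change pR a b *ᵥ (bs k : Fin 4 → ℝ) = (bs k : Fin 4 → ℝ)
    rw [← hz, Matrix.mulVec_mulVec, hi]
  · intro u hu
    have h3 : ∀ z, (pR a b *ᵥ z) ⬝ᵥ u = 0 := by
      intro z
      have hm : pR a b *ᵥ z ∈ LinearMap.range (Matrix.toLin' (pR a b)) := ⟨z, by simp⟩
      have e := bs.sum_repr ⟨pR a b *ᵥ z, hm⟩
      have e' : pR a b *ᵥ z = ∑ k, bs.repr ⟨pR a b *ᵥ z, hm⟩ k • (bs k : Fin 4 → ℝ) := by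
        have := congrArg (Submodule.subtype _) e
        rw [map_sum] at this
        simp only [map_smul, Submodule.subtype_apply] at this
        exact this.symm
      rw [e', sum_dotProduct]
      refine Finset.sum_eq_zero fun k _ => ?_
      rw [smul_dotProduct, hu k, smul_zero]
    have h4 : (pR a b *ᵥ u) ⬝ᵥ (pR a b *ᵥ u) = 0 := by
      rw [Matrix.dotProduct_mulVec, ← Matrix.mulVec_transpose, hs]
      exact h3 _
    exact dotProduct_self_eq_zero.1 h4

end lin

/-! ### Directions -/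

/-- direction in the coordinates `w` -/
def dW (y : Fin 5 → ℝ) : WIdx → ℝ :=
  Sum.elim (Sum.elim (fun _ => 0) (Sum.elim (fun _ => 0) y)) (fun _ => 0)
/-- direction in the coordinate `a i j` -/
def dA (i : Fin 2) (j : Fin 3) : WIdx → ℝ :=
  Sum.elim (fun _ => 0) (Sum.elim (fun _ => 0) (Pi.single (i, j) 1))
/-- direction in the coordinate `t i` -/
def dT (i : Fin 2) : WIdx → ℝ :=
  Sum.elim (fun _ => 0) (Sum.elim (Pi.single i 1) (fun _ => 0))
/-- direction in the coordinates `c, s` -/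
def dC (c s : Fin 4 → ℝ) : WIdx → ℝ :=
  Sum.elim (Sum.elim c (Sum.elim s (fun _ => 0))) (fun _ => 0)

section dir
variable (x : WIdx → ℝ) (s : ℝ)

@[simp] theorem cc_dW (y) (j) : cc (gW (x + s • dW y)) j = cc (gW x) j := by simp [cc, gW, dW]
@[simp] theorem ss_dW (y) (j) : ss (gW (x + s • dW y)) j = ss (gW x) j := by simp [ss, gW, dW]
@[simp] theorem ww_dW (y) (j) : ww (gW (x + s • dW y)) j = ww (gW x) j + s * y j := by
  simp [ww, gW, dW]
@[simp] theorem tW_dW (y) (i) : tW (x + s • dW y) i = tW x i := by simp [tW, dW]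
@[simp] theorem aW_dW (y) (i) (j) : aW (x + s • dW y) i j = aW x i j := by simp [aW, dW]

@[simp] theorem cc_dA (k l) (j) : cc (gW (x + s • dA k l)) j = cc (gW x) j := by
  simp [cc, gW, dA]
@[simp] theorem ss_dA (k l) (j) : ss (gW (x + s • dA k l)) j = ss (gW x) j := by
  simp [ss, gW, dA]
@[simp] theorem ww_dA (k l) (j) : ww (gW (x + s • dA k l)) j = ww (gW x) j := by
  simp [ww, gW, dA]
@[simp] theorem tW_dA (k l) (i) : tW (x + s • dA k l) i = tW x i := by simp [tW, dA]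
theorem aW_dA (k l) (i) (j) : aW (x + s • dA k l) i j =
    aW x i j + s * (Pi.single (M := fun _ => ℝ) (k, l) 1 (i, j)) := by
  simp [aW, dA]

@[simp] theorem cc_dT (k) (j) : cc (gW (x + s • dT k)) j = cc (gW x) j := by
  simp [cc, gW, dT]
@[simp] theorem ss_dT (k) (j) : ss (gW (x + s • dT k)) j = ss (gW x) j := by
  simp [ss, gW, dT]
@[simp] theorem ww_dT (k) (j) : ww (gW (x + s • dT k)) j = ww (gW x) j := by
  simp [ww, gW, dT]
theorem tW_dT (k) (i) : tW (x + s • dT k) i = tW x i + s * (Pi.single (M := fun _ => ℝ) k 1 i) := by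
  simp [tW, dT]
@[simp] theorem aW_dT (k) (i) (j) : aW (x + s • dT k) i j = aW x i j := by simp [aW, dT]

theorem cc_dC (c d) (j) : cc (gW (x + s • dC c d)) j = cc (gW x) j + s * c j := by
  simp [cc, gW, dC]
theorem ss_dC (c d) (j) : ss (gW (x + s • dC c d)) j = ss (gW x) j + s * d j := by
  simp [ss, gW, dC]

end dir

theorem det_ne_nhds (a b : Fin 3 → ℝ) (x : WIdx → ℝ) (ha : aW x 0 = a) (hb : aW x 1 = b) :
    {y : WIdx → ℝ | (1 - pR (aW y 0) (aW y 1) + pR a b).det ≠ 0} ∈ 𝓝 x := by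
  have hcont : Continuous fun y : WIdx → ℝ => (1 - pR (aW y 0) (aW y 1) + pR a b).det := by
    have hLc : Continuous fun y : WIdx → ℝ => LL (aW y 0) := by
      refine continuous_matrix fun i j => ?_
      unfold LL aW
      fin_cases i <;> fin_cases j <;> simp <;> fun_prop
    have hRc : Continuous fun y : WIdx → ℝ => RR (aW y 1) := by
      refine continuous_matrix fun i j => ?_
      unfold RR aW
      fin_cases i <;> fin_cases j <;> simp <;> fun_prop
    have hp : Continuous fun y : WIdx → ℝ => pR (aW y 0) (aW y 1) := by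
      have h1 : Continuous fun y : WIdx → ℝ => (1 : Matrix (Fin 4) (Fin 4) ℝ) -
        LL (aW y 0) * RR (aW y 1) := continuous_const.sub (hLc.matrix_mul hRc)
      exact h1.const_smul (1 / 2 : ℝ)
    have h1 : Continuous fun y : WIdx → ℝ => (1 : Matrix (Fin 4) (Fin 4) ℝ) -
      pR (aW y 0) (aW y 1) + pR a b := (continuous_const.sub hp).add continuous_const
    exact h1.matrix_det
  refine hcont.continuousAt.eventually_ne ?_
  rw [ha, hb]
  simp

theorem nonsing_WW (h1 : S_ROOT) (h2 : S_QUAT) {x : WIdx → ℝ} (hx : x ∈ WW) :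
    NonsingAt WW 6 x := by
  obtain ⟨hC, hS, hT, hA, hU⟩ := (mem_WW_iff x).1 hx
  have hu := unit_of h1 x hC hT hA
  obtain ⟨ξ, hξi, hξr, hξk⟩ := exists_xi h2 (hu 0) (hu 1)
  choose PC hPC using pf_eC
  obtain ⟨PS, hPS⟩ := pf_eS
  choose PT hPT using pf_eT
  choose PA hPA using pf_eA
  have pU : ∀ k, PF (fun w => ξ k ⬝ᵥ uV w) := fun k =>
    PF.sum Finset.univ fun l => (PF.const (ξ k l)).mul (pf_uV l)
  choose PU hPU using pU
  replace hPC : ∀ (j : Fin 4) (w : WIdx → ℝ), eval w (PC j) = eC w j := hPC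
  replace hPT : ∀ (j : Fin 2) (w : WIdx → ℝ), eval w (PT j) = eT w j := hPT
  replace hPA : ∀ (i : Fin 2) (j : Fin 3) (w : WIdx → ℝ), eval w (PA i j) = eA w i j := hPA
  replace hPU : ∀ (k : Fin 2) (w : WIdx → ℝ), eval w (PU k) = ξ k ⬝ᵥ uV w := hPU
  obtain ⟨hL, hR, hc, hLt, hRt, hi, hs, htr, hker⟩ := h2 _ _ (hu 0) (hu 1)
  have hN : ∀ i, 0 < N x i := fun i => h1.2.2.1 _ _ _ _ _
  refine nonsingAt_of WW 6 x (Fin 4 ⊕ (Unit ⊕ (Fin 2 ⊕ ((Fin 2 × Fin 3) ⊕ Fin 2))))
    (Sum.elim PC (Sum.elim (fun _ => PS) (Sum.elim PT (Sum.elim (fun p => PA p.1 p.2) PU))))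
    (by simp) ?_ ?_ ?_
  · intro j y hy
    obtain ⟨yC, yS, yT, yA, yU⟩ := (mem_WW_iff y).1 hy
    rcases j with j | j | j | ⟨i, j⟩ | k
    · simp only [Sum.elim_inl, hPC, yC]
    · simp only [Sum.elim_inl, Sum.elim_inr, hPS, yS]
    · simp only [Sum.elim_inl, Sum.elim_inr, hPT, yT]
    · simp only [Sum.elim_inl, Sum.elim_inr, hPA, yA]
    · simp only [Sum.elim_inr, hPU, yU, dotProduct_zero]
  · rw [Fintype.linearIndependent_iff]
    intro c hc
    obtain ⟨cC, hcC⟩ : ∃ f : Fin 4 → ℝ, f = fun j => c (Sum.inl j) := ⟨_, rfl⟩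
    obtain ⟨cS, hcS⟩ : ∃ f : ℝ, f = c (Sum.inr (Sum.inl ())) := ⟨_, rfl⟩
    obtain ⟨cT, hcT⟩ : ∃ f : Fin 2 → ℝ, f = fun j => c (Sum.inr (Sum.inr (Sum.inl j))) :=
      ⟨_, rfl⟩
    obtain ⟨cA, hcA⟩ : ∃ f : Fin 2 × Fin 3 → ℝ,
      f = fun j => c (Sum.inr (Sum.inr (Sum.inr (Sum.inl j)))) := ⟨_, rfl⟩
    obtain ⟨cU, hcU⟩ : ∃ f : Fin 2 → ℝ,
      f = fun j => c (Sum.inr (Sum.inr (Sum.inr (Sum.inr j)))) := ⟨_, rfl⟩
    have key : ∀ v : WIdx → ℝ, ∑ j, cC j * (grad (PC j) x ⬝ᵥ v) + (cS * (grad PS x ⬝ᵥ v) +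
        (∑ i, cT i * (grad (PT i) x ⬝ᵥ v) + (∑ p, cA p * (grad (PA p.1 p.2) x ⬝ᵥ v) +
          ∑ k, cU k * (grad (PU k) x ⬝ᵥ v)))) = 0 := by
      intro v
      have h := congrArg (fun g => g ⬝ᵥ v) hc
      simp only [Fintype.sum_sum_type, sum_dotProduct, add_dotProduct, smul_dotProduct,
        Sum.elim_inl, Sum.elim_inr, zero_dotProduct, smul_eq_mul, Finset.univ_unique,
        Finset.sum_singleton] at h
      rw [hcC, hcS, hcT, hcA, hcU]
      exact h
    -- the last two equations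
    obtain ⟨η, hη⟩ : ∃ η, η = ∑ k, cU k • ξ k := ⟨_, rfl⟩
    have hηr : pR (aW x 0) (aW x 1) *ᵥ η = η := by
      rw [hη, Matrix.mulVec_sum]
      refine Finset.sum_congr rfl fun k _ => ?_
      rw [Matrix.mulVec_smul, hξr]
    obtain ⟨z, hz⟩ : ∃ z, z = LL (aW x 0) *ᵥ η := ⟨_, rfl⟩
    have hzr : pR (aW x 0) (aW x 1) *ᵥ z = z := by
      rw [hz, Matrix.mulVec_mulVec, pR_comm h2 (hu 0) (hu 1), ← Matrix.mulVec_mulVec, hηr]
    have hz2 : (LL (aW x 0) + RR (aW x 1)) *ᵥ z = (-2 : ℝ) • η := by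
      rw [← hzr, Matrix.mulVec_mulVec, sum_mul_pR h2 (hu 0) (hu 1), Matrix.smul_mulVec,
        ← Matrix.mulVec_mulVec, hzr, hz, Matrix.mulVec_mulVec, hL, Matrix.neg_mulVec,
        Matrix.one_mulVec]
      simp
    have hvz : vv (gW x) ⬝ᵥ z = 0 := by
      rw [← hzr, Matrix.dotProduct_mulVec, ← Matrix.mulVec_transpose, hs,
        (hker _).1 hU, zero_dotProduct]
    have hU0 : ∀ k, cU k = 0 := by
      obtain ⟨y, hy⟩ : ∃ y : Fin 5 → ℝ, y = Fin.snoc (α := fun _ => ℝ) z 0 := ⟨_, rfl⟩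
      have hy1 : ∀ k : Fin 4, y k.castSucc = z k := fun k => by rw [hy]; simp
      have hy2 : y (Fin.last 4) = 0 := by rw [hy, Fin.snoc_last]
      have k1 := key (dW y)
      have d1 : ∀ j, grad (PC j) x ⬝ᵥ dW y = 0 := fun j =>
        grad_dot_zero (f := fun w => eC w j) (hPC j) _ _ fun s => by simp [eC]
      have d2 : grad PS x ⬝ᵥ dW y = 0 := by
        refine grad_dot_eq hPS _ _ ?_
        have h3 : HasDerivAt (fun s : ℝ => ∑ k, (ww (gW x) k + s * y k) ^ 2 - 1)
            (∑ k, 2 * ww (gW x) k * y k) 0 := by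
          refine HasDerivAt.sub_const _ (HasDerivAt.fun_sum fun k _ => ?_)
          have h4 := (((hasDerivAt_id (0 : ℝ)).mul_const (y k)).const_add (ww (gW x) k)).pow 2
          refine h4.congr_deriv ?_
          simp
        have h5 : ∑ k, 2 * ww (gW x) k * y k = 0 := by
          rw [Fin.sum_univ_castSucc, hy2]
          simp only [hy1, mul_zero, add_zero]
          have : ∑ k : Fin 4, 2 * ww (gW x) k.castSucc * z k = 2 * (vv (gW x) ⬝ᵥ z) := by
            simp only [dotProduct, Finset.mul_sum, vv]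
            exact Finset.sum_congr rfl fun k _ => by ring
          rw [this, hvz, mul_zero]
        rw [h5] at h3
        simpa [eS] using h3
      have d3 : ∀ j, grad (PT j) x ⬝ᵥ dW y = 0 := fun j =>
        grad_dot_zero (f := fun w => eT w j) (hPT j) _ _ fun s => by simp [eT, G]
      have d4 : ∀ i j, grad (PA i j) x ⬝ᵥ dW y = 0 := fun i j =>
        grad_dot_zero (f := fun w => eA w i j) (hPA i j) _ _ fun s => by simp [eA, N, B]
      have d5 : ∀ k, grad (PU k) x ⬝ᵥ dW y = ξ k ⬝ᵥ ((LL (aW x 0) + RR (aW x 1)) *ᵥ z) := by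
        intro k
        refine grad_dot_eq (hPU k) _ _ ?_
        have h3 : ∀ s : ℝ, ξ k ⬝ᵥ uV (x + s • dW y) = ξ k ⬝ᵥ uV x +
            s * (ξ k ⬝ᵥ ((LL (aW x 0) + RR (aW x 1)) *ᵥ z)) := by
          intro s
          have e1 : aW (x + s • dW y) = aW x := by funext i j; simp
          have e2 : vv (gW (x + s • dW y)) = vv (gW x) + s • z := by
            funext i
            simp only [vv, ww_dW, hy1, Pi.add_apply, Pi.smul_apply, smul_eq_mul]
          unfold uV
          rw [e1, e2, Matrix.mulVec_add, dotProduct_add, Matrix.mulVec_smul, dotProduct_smul,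
            smul_eq_mul]
        simp only [h3]
        simpa using ((hasDerivAt_id (0 : ℝ)).mul_const
          (ξ k ⬝ᵥ ((LL (aW x 0) + RR (aW x 1)) *ᵥ z))).const_add (ξ k ⬝ᵥ uV x)
      simp only [d1, d2, d3, d4, d5, mul_zero, Finset.sum_const_zero, zero_add, hz2] at k1
      have h6 : η ⬝ᵥ ((-2 : ℝ) • η) = 0 := by
        have : ∀ u, η ⬝ᵥ u = ∑ k, cU k * (ξ k ⬝ᵥ u) := fun u => by
          rw [hη, sum_dotProduct]
          exact Finset.sum_congr rfl fun k _ => by rw [smul_dotProduct, smul_eq_mul]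
        rw [this, k1]
      rw [dotProduct_smul, smul_eq_mul] at h6
      have h7 : η = 0 := dotProduct_self_eq_zero.1 (by linarith)
      rw [h7] at hη
      exact Fintype.linearIndependent_iff.1 hξi cU hη.symm
    -- the sphere
    have hS0 : cS = 0 := by
      have k1 := key (dW (ww (gW x)))
      have d1 : ∀ j, grad (PC j) x ⬝ᵥ dW (ww (gW x)) = 0 := fun j =>
        grad_dot_zero (f := fun w => eC w j) (hPC j) _ _ fun s => by simp [eC]
      have d2 : grad PS x ⬝ᵥ dW (ww (gW x)) = 2 := by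
        refine grad_dot_eq hPS _ _ ?_
        have h3 : HasDerivAt (fun s : ℝ => ∑ k, (ww (gW x) k + s * ww (gW x) k) ^ 2 - 1)
            (∑ k, 2 * ww (gW x) k * ww (gW x) k) 0 := by
          refine HasDerivAt.sub_const _ (HasDerivAt.fun_sum fun k _ => ?_)
          have h4 := (((hasDerivAt_id (0 : ℝ)).mul_const (ww (gW x) k)).const_add
            (ww (gW x) k)).pow 2
          refine h4.congr_deriv ?_
          simp
        have h5 : ∑ k, 2 * ww (gW x) k * ww (gW x) k = 2 := by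
          have : ∑ k, 2 * ww (gW x) k * ww (gW x) k = 2 * ∑ k, ww (gW x) k ^ 2 := by
            rw [Finset.mul_sum]
            exact Finset.sum_congr rfl fun k _ => by ring
          unfold eS at hS
          rw [this]
          linarith
        rw [h5] at h3
        simpa only [eS, ww_dW] using h3
      have d3 : ∀ j, grad (PT j) x ⬝ᵥ dW (ww (gW x)) = 0 := fun j =>
        grad_dot_zero (f := fun w => eT w j) (hPT j) _ _ fun s => by simp [eT, G]
      have d4 : ∀ i j, grad (PA i j) x ⬝ᵥ dW (ww (gW x)) = 0 := fun i j =>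
        grad_dot_zero (f := fun w => eA w i j) (hPA i j) _ _ fun s => by simp [eA, N, B]
      simp only [d1, d2, d3, d4, hU0, mul_zero, zero_mul, Finset.sum_const_zero, zero_add,
        add_zero] at k1
      linarith
    -- the unit vectors
    have hA0 : ∀ p, cA p = 0 := by
      rintro ⟨i, j⟩
      have k1 := key (dA i j)
      have d1 : ∀ l, grad (PC l) x ⬝ᵥ dA i j = 0 := fun l =>
        grad_dot_zero (f := fun w => eC w l) (hPC l) _ _ fun s => by simp [eC]
      have d3 : ∀ l, grad (PT l) x ⬝ᵥ dA i j = 0 := fun l =>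
        grad_dot_zero (f := fun w => eT w l) (hPT l) _ _ fun s => by simp [eT, G]
      have d4 : ∀ q : Fin 2 × Fin 3, grad (PA q.1 q.2) x ⬝ᵥ dA i j =
          N x q.1 * Pi.single (M := fun _ => ℝ) (i, j) 1 q := by
        intro q
        refine grad_dot_eq (f := fun w => eA w q.1 q.2) (hPA _ _) _ _ ?_
        have h3 : ∀ s : ℝ, eA (x + s • dA i j) q.1 q.2 = eA x q.1 q.2 +
            s * (N x q.1 * Pi.single (M := fun _ => ℝ) (i, j) 1 q) := by
          intro s
          simp only [eA, N, B, cc_dA, ss_dA, tW_dA, aW_dA]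
          ring
        simp only [h3]
        simpa using ((hasDerivAt_id (0 : ℝ)).mul_const
          (N x q.1 * Pi.single (M := fun _ => ℝ) (i, j) 1 q)).const_add (eA x q.1 q.2)
      simp only [d1, d3, d4, hU0, hS0, mul_zero, zero_mul, Finset.sum_const_zero, zero_add,
        add_zero] at k1
      rw [Finset.sum_eq_single (i, j)] at k1
      · simp only [Pi.single_eq_same, mul_one] at k1
        rcases mul_eq_zero.1 k1 with h | h
        · exact h
        · exact absurd h (hN i).ne'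
      · intro q _ hq
        rw [Pi.single_eq_of_ne hq]
        ring
      · simp
    -- the cubics
    have hT0 : ∀ i, cT i = 0 := by
      intro i
      have k1 := key (dT i)
      have d1 : ∀ l, grad (PC l) x ⬝ᵥ dT i = 0 := fun l =>
        grad_dot_zero (f := fun w => eC w l) (hPC l) _ _ fun s => by simp [eC]
      have d3 : ∀ l, grad (PT l) x ⬝ᵥ dT i =
          (3 * tW x l ^ 2 + 4) * Pi.single (M := fun _ => ℝ) i 1 l := by
        intro l
        refine grad_dot_eq (f := fun w => eT w l) (hPT l) _ _ ?_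
        have h3 : ∀ s : ℝ, eT (x + s • dT i) l =
            (tW x l + s * Pi.single (M := fun _ => ℝ) i 1 l) ^ 3 +
              4 * (tW x l + s * Pi.single (M := fun _ => ℝ) i 1 l) - G x l := by
          intro s
          simp only [eT, G, cc_dT, ss_dT, tW_dT]
        simp only [h3]
        have h4 := ((hasDerivAt_id (0 : ℝ)).mul_const
          (Pi.single (M := fun _ => ℝ) i 1 l)).const_add (tW x l)
        have h5 := ((h4.pow 3).add (h4.const_mul 4)).sub_const (G x l)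
        refine h5.congr_deriv ?_
        simp
        ring
      simp only [d1, d3, hU0, hS0, hA0, mul_zero, zero_mul, Finset.sum_const_zero, zero_add,
        add_zero] at k1
      rw [Finset.sum_eq_single i] at k1
      · simp only [Pi.single_eq_same, mul_one] at k1
        rcases mul_eq_zero.1 k1 with h | h
        · exact h
        · nlinarith [sq_nonneg (tW x i)]
      · intro q _ hq
        rw [Pi.single_eq_of_ne hq]
        ring
      · simp
    -- the circles
    have hC0 : ∀ j, cC j = 0 := by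
      intro j
      have k1 := key (dC (Pi.single j (cc (gW x) j)) (Pi.single j (ss (gW x) j)))
      have d1 : ∀ l, grad (PC l) x ⬝ᵥ dC (Pi.single j (cc (gW x) j)) (Pi.single j (ss (gW x) j)) =
          2 * (cc (gW x) l * Pi.single (M := fun _ => ℝ) j (cc (gW x) j) l +
            ss (gW x) l * Pi.single (M := fun _ => ℝ) j (ss (gW x) j) l) := by
        intro l
        refine grad_dot_eq (f := fun w => eC w l) (hPC l) _ _ ?_
        simp only [eC, cc_dC, ss_dC]
        have h4 := ((hasDerivAt_id (0 : ℝ)).mul_const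
          (Pi.single (M := fun _ => ℝ) j (cc (gW x) j) l)).const_add (cc (gW x) l)
        have h4' := ((hasDerivAt_id (0 : ℝ)).mul_const
          (Pi.single (M := fun _ => ℝ) j (ss (gW x) j) l)).const_add (ss (gW x) l)
        have h5 := ((h4.pow 2).add (h4'.pow 2)).sub_const 1
        refine h5.congr_deriv ?_
        simp
        ring
      simp only [d1, hU0, hS0, hA0, hT0, mul_zero, zero_mul, Finset.sum_const_zero, zero_add,
        add_zero] at k1
      rw [Finset.sum_eq_single j] at k1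
      · simp only [Pi.single_eq_same] at k1
        have := hC j
        unfold eC at this
        have h6 : cC j * 2 = 0 := by
          rw [← k1]
          linear_combination (-2 * cC j) * this
        linarith
      · intro q _ hq
        rw [Pi.single_eq_of_ne hq, Pi.single_eq_of_ne hq]
        ring
      · simp
    rintro (j | j | j | j | j)
    · simpa [hcC] using hC0 j
    · simpa [hcS] using hS0
    · simpa [hcT] using hT0 j
    · simpa [hcA] using hA0 j
    · simpa [hcU] using hU0 j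
  · refine ⟨_, det_ne_nhds (aW x 0) (aW x 1) x rfl rfl, fun y hy hy' => ?_⟩
    have yC : ∀ j, eC y j = 0 := fun j => (hPC j y).symm.trans (hy' (Sum.inl j))
    have yS : eS y = 0 := (hPS y).symm.trans (hy' (Sum.inr (Sum.inl ())))
    have yT : ∀ j, eT y j = 0 := fun j =>
      (hPT j y).symm.trans (hy' (Sum.inr (Sum.inr (Sum.inl j))))
    have yA : ∀ i j, eA y i j = 0 := fun i j =>
      (hPA i j y).symm.trans (hy' (Sum.inr (Sum.inr (Sum.inr (Sum.inl (i, j))))))
    have yU : ∀ k, ξ k ⬝ᵥ uV y = 0 := fun k =>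
      (hPU k y).symm.trans (hy' (Sum.inr (Sum.inr (Sum.inr (Sum.inr k)))))
    refine (mem_WW_iff y).2 ⟨yC, yS, yT, yA, ?_⟩
    have yu := unit_of h1 y yC yT yA
    have e1 : pR (aW y 0) (aW y 1) *ᵥ uV y = uV y := by
      unfold uV
      rw [Matrix.mulVec_mulVec, pR_mul_sum h2 (yu 0) (yu 1)]
    have e2 : pR (aW x 0) (aW x 1) *ᵥ uV y = 0 := hξk _ yU
    refine Matrix.eq_zero_of_mulVec_eq_zero hy ?_
    rw [Matrix.add_mulVec, Matrix.sub_mulVec, Matrix.one_mulVec, e1, e2]
    simp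

theorem w_ok (h1 : S_ROOT) (h2 : S_QUAT) : S_W :=
  ⟨isCompact_WW h1, isAlgSet_WW, fun _ hx => nonsing_WW h1 h2 hx⟩

end Pool.Agent.Helper46.AC
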